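import Pool.Agent.Helper61.TQ.Core

set_option autoImplicit false

/-! Module FRESH: a round is good with high probability. -/

namespace Pool.Agent.Helper61.TQ

open Pool.Agent.Helper58 Pool.Agent.Helper53.CL Pool.Agent.Helper52.Grid

theorem fresh_ind_le_one (p : Prop) : ind p ≤ 1 := by
  unfold ind; split_ifs <;> norm_num

theorem fresh_ind_nonneg (p : Prop) : 0 ≤ ind p := by
  unfold ind; split_ifs <;> norm_num

theorem fresh_ind_true {p : Prop} (h : p) : ind p = 1 := by
  unfold ind; rw [if_pos h]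

theorem fresh_ind_false {p : Prop} (h : ¬ p) : ind p = 0 := by
  unfold ind; rw [if_neg h]

theorem fresh_levels (t : ℕ) (N : ℕ) : ∀ k j : ℕ, k < N → j < t →
    ((List.range N).flatMap (fun k => List.replicate t k)).getD (k * t + j) 0 = k := by
  induction N with
  | zero => intro k j hk; exact absurd hk (Nat.not_lt_zero _)
  | succ N ih =>
    intro k j hk hj
    have hlen : ((List.range N).flatMap (fun k => List.replicate t k)).length = N * t := by
      clear ih hk
      induction N with
      | zero => simp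
      | succ N ih' => 
        rw [List.range_succ, List.flatMap_append, List.length_append, ih']
        simp [Nat.succ_mul]
    rw [List.range_succ, List.flatMap_append]
    rcases Nat.lt_succ_iff_lt_or_eq.mp hk with h | h
    · rw [List.getD_append _ _ _ _ (by
        rw [hlen]
        calc k * t + j < k * t + t := by omega
          _ = (k + 1) * t := by ring
          _ ≤ N * t := Nat.mul_le_mul_right _ h)]
      exact ih k j h hj
    · subst h
      rw [List.getD_append_right _ _ _ _ (by rw [hlen]; omega), hlen]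
      simp only [List.flatMap_cons, List.flatMap_nil, List.append_nil]
      rw [Nat.add_sub_cancel_left, List.getD_eq_getElem _ _ (by simpa using hj)]
      simp

theorem fresh_level (n k s : ℕ) (hk : k ≤ n + 1) (h1 : k * tt n ≤ s) (h2 : s < (k + 1) * tt n) :
    (levels n).getD s 0 = k := by
  have := fresh_levels (tt n) (n + 2) k (s - k * tt n) (by omega) (by
    rw [Nat.succ_mul] at h2; omega)
  rw [Nat.add_sub_cancel' h1] at this
  exact this

theorem fresh_prod_range (J : ℕ) (f : ℕ → ℝ) :
    ((List.range J).map f).prod = ∏ s ∈ Finset.range J, f s := by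
  induction J with
  | zero => simp
  | succ J ih => rw [List.range_succ, List.map_append, List.prod_append, ih,
      Finset.prod_range_succ]; simp

theorem fresh_prod_le (J k t : ℕ) (hk : (k + 1) * t ≤ J) (a : ℕ → ℝ) (h0 : ∀ s, 0 ≤ a s)
    (h1 : ∀ s, a s ≤ 1) (h2 : ∀ s, k * t ≤ s → s < (k + 1) * t → a s ≤ 15 / 16) :
    ∏ s ∈ Finset.range J, a s ≤ (15 / 16) ^ t := by
  have hsub : Finset.Ico (k * t) ((k + 1) * t) ⊆ Finset.range J := by
    intro s hs
    rw [Finset.mem_Ico] at hs
    rw [Finset.mem_range]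
    omega
  calc ∏ s ∈ Finset.range J, a s 
      ≤ ∏ s ∈ Finset.range J, (if s ∈ Finset.Ico (k * t) ((k + 1) * t) then (15 / 16 : ℝ) else 1) := by
        apply Finset.prod_le_prod (fun s _ => h0 s)
        intro s _
        split_ifs with h
        · rw [Finset.mem_Ico] at h
          exact h2 s h.1 h.2
        · exact h1 s
    _ = ∏ s ∈ Finset.Ico (k * t) ((k + 1) * t), (15 / 16 : ℝ) := by
        rw [Finset.prod_ite_mem, Finset.inter_eq_right.mpr hsub]
    _ = (15 / 16) ^ t := by
        rw [Finset.prod_const, Nat.card_Ico]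
        congr 1
        rw [Nat.succ_mul]; omega

theorem fresh_avg_sum (hAVG : ST_AVG) (m : ℕ) {ι : Type} (s : Finset ι) (f : ι → W → ℝ) :
    avg m (fun r => ∑ i ∈ s, f i r) = ∑ i ∈ s, avg m (f i) := by
  classical
  induction s using Finset.induction_on with
  | empty => simpa using hAVG.2.2.2.1 m 0
  | insert a s ha ih =>
    rw [Finset.sum_insert ha, ← ih, ← hAVG.2.1]
    congr 1
    funext r
    rw [Finset.sum_insert ha]

theorem fresh_mem_CS (S : Sys) (n : ℕ) (L : List W) (y : W) :
    y ∈ S.CS n L ↔ y.length = n ∧ S.cons L y = true := by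
  unfold Sys.CS
  rw [Finset.mem_filter, Finset.mem_image]
  constructor
  · rintro ⟨⟨f, _, rfl⟩, h⟩
    exact ⟨by simp, h⟩
  · rintro ⟨h1, h2⟩
    refine ⟨⟨fun i => y.get (i.cast h1.symm), Finset.mem_univ _, ?_⟩, h2⟩
    subst h1
    simp

theorem fresh_card_words (n : ℕ) :
    ((Finset.univ : Finset (Fin n → Bool)).image List.ofFn).card = 2 ^ n := by
  classical
  rw [Finset.card_image_of_injective _ List.ofFn_injective, Finset.card_univ]
  simp

theorem fresh_card_CS (S : Sys) (n : ℕ) (L : List W) : (S.CS n L).card ≤ 2 ^ n := by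
  classical
  unfold Sys.CS
  refine (Finset.card_filter_le _ _).trans ?_
  rw [fresh_card_words]

/-- the isolation event -/
def freshE (S : Sys) (n : ℕ) (L : List W) (X : W) (k : ℕ) (b : W) : Prop :=
  ∃ c ∈ S.CS n (L ++ [X]), hz n k b c = true ∧ ∀ c' ∈ S.CS n L, hz n k b c' = true → c' = c

theorem fresh_isolated (hANS : ST_ANS) (S : Sys) (n : ℕ) (L : List W) (X : W) (k : ℕ) (b : W)
    (h : freshE S n L X k b) : S.solves (ans n (S.RT n L k b)).tail X = true := by
  obtain ⟨c, hc, hz1, huniq⟩ := h
  have hA := hANS n (S.RT n L k b)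
  have hcX := (fresh_mem_CS S n (L ++ [X]) c).mp hc
  have hcons : S.cons L c = true ∧ S.solves c X = true := by
    have := hcX.2
    unfold Sys.cons at this ⊢
    rw [List.all_append, Bool.and_eq_true] at this
    exact ⟨this.1, by simpa using this.2⟩
  have hhead : (ans n (S.RT n L k b)).headD false = true :=
    hA.2.1.mpr ⟨c, hcX.1, hcX.1, hcons.1, hz1⟩
  have hR := hA.2.2 hhead
  have hmem : (ans n (S.RT n L k b)).tail ∈ S.CS n L :=
    (fresh_mem_CS S n L _).mpr ⟨hR.1, hR.2.1⟩
  rw [huniq _ hmem hR.2.2]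
  exact hcons.2

theorem fresh_exists_k (c n : ℕ) (hc : 0 < c) (hcn : c ≤ 2 ^ n) :
    ∃ k, k ≤ n + 1 ∧ 2 * c ≤ 2 ^ k ∧ 2 ^ k < 4 * c := by
  refine ⟨Nat.clog 2 (2 * c), ?_, ?_, ?_⟩
  · apply Nat.clog_le_of_le_pow
    rw [pow_succ]; omega
  · exact Nat.le_pow_clog (by norm_num) _
  · have h := Nat.pow_pred_clog_lt_self (b := 2) (x := 2 * c) (by norm_num) (by omega)
    have hpos : 0 < Nat.clog 2 (2 * c) := Nat.clog_pos (by norm_num) (by omega)
    obtain ⟨m, hm⟩ := Nat.exists_eq_succ_of_ne_zero hpos.ne'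
    rw [hm] at h ⊢
    rw [Nat.pred_succ] at h
    rw [Nat.succ_eq_add_one, pow_succ]
    omega

theorem fresh_num (n : ℕ) : (15 / 16 : ℝ) ^ tt n ≤ 1 / 2 ^ (2 * n + 4) := by
  unfold tt
  rw [pow_mul]
  have h : (15 / 16 : ℝ) ^ 16 ≤ 1 / 2 := by norm_num
  calc ((15 / 16 : ℝ) ^ 16) ^ (2 * n + 4) ≤ (1 / 2) ^ (2 * n + 4) :=
        pow_le_pow_left₀ (by positivity) h _
    _ = 1 / 2 ^ (2 * n + 4) := by rw [one_div_pow]

/-- a fixed instance -/
theorem fresh_one (hANS : ST_ANS) (hAVG : ST_AVG) (hISO : ST_ISO) (S : Sys) (n : ℕ) (L : List W)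
    (hne : (S.CS n L).Nonempty) (X : W) :
    avg (JJ n * hs n) (fun r => ind ((S.CS n L).card ≤ 2 * (S.CS n (L ++ [X])).card ∧
      ∀ ρ ∈ S.cands n L r, S.solves ρ X = false)) ≤ 1 / 2 ^ (2 * n + 4) := by
  by_cases hX : (S.CS n L).card ≤ 2 * (S.CS n (L ++ [X])).card
  swap
  · have h0 : (fun r => ind ((S.CS n L).card ≤ 2 * (S.CS n (L ++ [X])).card ∧
        ∀ ρ ∈ S.cands n L r, S.solves ρ X = false)) = fun _ => 0 := by
      funext r
      exact fresh_ind_false (fun h => hX h.1)
    rw [h0, hAVG.2.2.2.1]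
    positivity
  obtain ⟨k, hk, hk1, hk2⟩ := fresh_exists_k (S.CS n L).card n hne.card_pos (fresh_card_CS S n L)
  have hsub : S.CS n (L ++ [X]) ⊆ S.CS n L := by
    intro y hy
    have := (fresh_mem_CS S n _ y).mp hy
    refine (fresh_mem_CS S n L y).mpr ⟨this.1, ?_⟩
    have h2 := this.2
    unfold Sys.cons at h2 ⊢
    rw [List.all_append, Bool.and_eq_true] at h2
    exact h2.1
  have hiso : 1 / 16 ≤ avg (hs n) (fun s => ind (freshE S n L X k s)) :=
    hISO n k (S.CS n L) (S.CS n (L ++ [X])) hk
      (fun x hx => ((fresh_mem_CS S n L x).mp hx).1) hsub hk1 hk2 hX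
  set f : ℕ → W → ℝ := fun s b =>
    if k * tt n ≤ s ∧ s < (k + 1) * tt n then 1 + (-1) * ind (freshE S n L X k b) else 1 with hf
  have hf0 : ∀ s b, 0 ≤ f s b := by
    intro s b
    simp only [hf]
    split_ifs
    · have := fresh_ind_le_one (freshE S n L X k b); linarith
    · norm_num
  have hf1 : ∀ s b, f s b ≤ 1 := by
    intro s b
    simp only [hf]
    split_ifs
    · have := fresh_ind_nonneg (freshE S n L X k b); linarith
    · norm_num
  have havg0 : ∀ s, 0 ≤ avg (hs n) (f s) := by
    intro s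
    have := hAVG.1 (hs n) (fun _ => 0) (f s) (fun w _ => hf0 s w)
    rwa [hAVG.2.2.2.1] at this
  have havg1 : ∀ s, avg (hs n) (f s) ≤ 1 := by
    intro s
    have := hAVG.1 (hs n) (f s) (fun _ => 1) (fun w _ => hf1 s w)
    rwa [hAVG.2.2.2.1] at this
  have havg2 : ∀ s, k * tt n ≤ s → s < (k + 1) * tt n → avg (hs n) (f s) ≤ 15 / 16 := by
    intro s h1 h2
    have h3 : f s = fun b => 1 + (-1) * ind (freshE S n L X k b) := by
      funext b
      simp only [hf]
      rw [if_pos ⟨h1, h2⟩]
    rw [h3, hAVG.2.1 (hs n) (fun _ => (1 : ℝ)) (fun b => (-1) * ind (freshE S n L X k b)),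
      hAVG.2.2.2.1, hAVG.2.2.1]
    linarith
  have hJ : (k + 1) * tt n ≤ JJ n := by
    unfold JJ
    exact Nat.mul_le_mul_right _ (by omega)
  calc avg (JJ n * hs n) (fun r => ind ((S.CS n L).card ≤ 2 * (S.CS n (L ++ [X])).card ∧
      ∀ ρ ∈ S.cands n L r, S.solves ρ X = false))
      ≤ avg (JJ n * hs n) (fun r =>
        ((List.range (JJ n)).map (fun s => f s ((r.drop (s * hs n)).take (hs n)))).prod) := by
        apply hAVG.1
        intro r _
        rw [fresh_prod_range]
        by_cases hb : (S.CS n L).card ≤ 2 * (S.CS n (L ++ [X])).card ∧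
          ∀ ρ ∈ S.cands n L r, S.solves ρ X = false
        · rw [fresh_ind_true hb]
          apply le_of_eq
          symm
          apply Finset.prod_eq_one
          intro s hs
          simp only [hf]
          split_ifs with hrange
          · rw [fresh_ind_false, mul_zero, add_zero]
            intro hE
            have h1 := fresh_isolated hANS S n L X k _ hE
            have h2 := hb.2 (ans n (S.RT n L k ((r.drop (s * TQ.hs n)).take (TQ.hs n)))).tail (by
              unfold Sys.cands
              rw [List.mem_map]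
              refine ⟨s, ?_, ?_⟩
              · rw [List.mem_range]; exact Finset.mem_range.mp hs
              · rw [fresh_level n k s hk hrange.1 hrange.2])
            rw [h1] at h2
            exact absurd h2 (by decide)
          · rfl
        · rw [fresh_ind_false hb]
          exact Finset.prod_nonneg (fun s _ => hf0 s _)
    _ = ((List.range (JJ n)).map (fun s => avg (hs n) (f s))).prod := hAVG.2.2.2.2.2.2.1 _ _ f
    _ = ∏ s ∈ Finset.range (JJ n), avg (hs n) (f s) := fresh_prod_range _ _
    _ ≤ (15 / 16) ^ tt n := fresh_prod_le (JJ n) k (tt n) hJ _ havg0 havg1 havg2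
    _ ≤ 1 / 2 ^ (2 * n + 4) := fresh_num n

theorem st_FRESH (hANS : ST_ANS) (hAVG : ST_AVG) (hISO : ST_ISO) : ST_FRESH := by
  classical
  intro S n L hne
  set words : Finset W := (Finset.univ : Finset (Fin n → Bool)).image List.ofFn with hwords
  have hcard : words.card = 2 ^ n := by
    rw [hwords]
    exact fresh_card_words n
  have hmemw : ∀ X : W, X.length = n → X ∈ words := by
    intro X hX
    rw [hwords, Finset.mem_image]
    refine ⟨fun i => X.get (i.cast hX.symm), Finset.mem_univ _, ?_⟩
    subst hX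
    simp
  calc avg (JJ n * hs n) (fun r => ind (¬ S.Good n L r))
      ≤ avg (JJ n * hs n) (fun r => ∑ X ∈ words,
        ind ((S.CS n L).card ≤ 2 * (S.CS n (L ++ [X])).card ∧
          ∀ ρ ∈ S.cands n L r, S.solves ρ X = false)) := by
        apply hAVG.1
        intro r _
        by_cases hg : S.Good n L r
        · rw [fresh_ind_false (not_not.mpr hg)]
          exact Finset.sum_nonneg (fun X _ => fresh_ind_nonneg _)
        · rw [fresh_ind_true hg]
          unfold Sys.Good at hg
          push Not at hg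
          obtain ⟨X, hX, hX1, hX2⟩ := hg
          have hev : (S.CS n L).card ≤ 2 * (S.CS n (L ++ [X])).card ∧
              ∀ ρ ∈ S.cands n L r, S.solves ρ X = false :=
            ⟨hX1, fun ρ hρ => by simpa using hX2 ρ hρ⟩
          calc (1 : ℝ) = ind ((S.CS n L).card ≤ 2 * (S.CS n (L ++ [X])).card ∧
                ∀ ρ ∈ S.cands n L r, S.solves ρ X = false) := (fresh_ind_true hev).symm
            _ ≤ _ := Finset.single_le_sum (f := fun X =>
                  ind ((S.CS n L).card ≤ 2 * (S.CS n (L ++ [X])).card ∧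
                  ∀ ρ ∈ S.cands n L r, S.solves ρ X = false))
                (fun Y _ => fresh_ind_nonneg _) (hmemw X hX)
    _ = ∑ X ∈ words, avg (JJ n * hs n) (fun r =>
        ind ((S.CS n L).card ≤ 2 * (S.CS n (L ++ [X])).card ∧
          ∀ ρ ∈ S.cands n L r, S.solves ρ X = false)) := fresh_avg_sum hAVG _ _ _
    _ ≤ ∑ X ∈ words, (1 / 2 ^ (2 * n + 4) : ℝ) :=
        Finset.sum_le_sum (fun X _ => fresh_one hANS hAVG hISO S n L hne X)
    _ = 1 / 2 ^ (n + 4) := by
        rw [Finset.sum_const, hcard, nsmul_eq_mul]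
        have : (2 : ℝ) ^ (2 * n + 4) = 2 ^ n * 2 ^ (n + 4) := by
          rw [← pow_add]; congr 1; omega
        rw [this]
        push_cast
        field_simp

end Pool.Agent.Helper61.TQ
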